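import Pool.Agent.H99.SpecMeas

/-!
# A vector with absolutely continuous spectral measure

If the spectral measure of `e` for the bounded self-adjoint operator `A` is not mutually singular to
the Lebesgue measure, then some vector `φ ≠ 0` has an absolutely continuous spectral measure
(so the absolutely continuous subspace of `A` is not zero).
-/

set_option autoImplicit false

open MeasureTheory Filter Topology
open scoped ENNReal InnerProductSpace

namespace Pool.Agent.H82.AcVector

open Pool.Agent.H99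

variable {H : Type*} [NormedAddCommGroup H] [InnerProductSpace ℂ H] [CompleteSpace H]

/-- `μ` is the spectral measure of the vector `φ` for the self-adjoint operator `A`:
`⟨φ, f(A) φ⟩ = ∫ f dμ` for every continuous `f`. -/
def IsSpectralMeasure (A : H →L[ℂ] H) (φ : H) (μ : Measure ℝ) : Prop :=
  IsFiniteMeasure μ ∧ ∀ f : ℝ → ℝ, Continuous f →
    Integrable f μ ∧ ⟪φ, cfc f A φ⟫_ℂ = ((∫ x, f x ∂μ : ℝ) : ℂ)

theorem cfc_sa (A : H →L[ℂ] H) (f : ℝ → ℝ) (x y : H) :
    ⟪cfc f A x, y⟫_ℂ = ⟪x, cfc f A y⟫_ℂ := by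
  have h : IsSelfAdjoint (cfc f A) := cfc_predicate f A
  rw [ContinuousLinearMap.isSelfAdjoint_iff_isSymmetric] at h
  exact h x y

theorem inner_cfc_eq (A : H →L[ℂ] H) (f : ℝ → ℝ) (x : H) :
    ⟪x, cfc f A x⟫_ℂ = (((⟪x, cfc f A x⟫_ℂ).re : ℝ) : ℂ) := by
  have h : IsSelfAdjoint (cfc f A) := cfc_predicate f A
  rw [ContinuousLinearMap.isSelfAdjoint_iff_isSymmetric] at h
  exact (h.coe_re_inner_self_apply x).symm

theorem isSpectralMeasure_specMeasure (A : H →L[ℂ] H) (hA : IsSelfAdjoint A) (e : H) :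
    IsSpectralMeasure A e (specMeasure A hA e) := by
  refine ⟨inferInstance, fun f hf => ?_⟩
  obtain ⟨h1, h2⟩ := integral_specMeasure_of_continuous A hA e f hf
  refine ⟨h1, ?_⟩
  rw [inner_cfc_eq, h2]

/-- `⟨g(A) e, f(A) g(A) e⟩ = ∫ f g² dμ` -/
theorem inner_cfc_cfc (A : H →L[ℂ] H) (_hA : IsSelfAdjoint A) (e : H) (μ : Measure ℝ)
    (hμ : IsSpectralMeasure A e μ) (f g g' : ℝ → ℝ) (hf : Continuous f) (hg : Continuous g)
    (hg' : Continuous g') :
    ⟪cfc g A e, cfc f A (cfc g' A e)⟫_ℂ = ((∫ x, g x * (f x * g' x) ∂μ : ℝ) : ℂ) := by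
  rw [cfc_sa]
  have h1 : cfc (fun x => g x * (f x * g' x)) A = cfc g A * (cfc f A * cfc g' A) := by
    rw [cfc_mul g (fun x => f x * g' x) A hg.continuousOn (hf.mul hg').continuousOn,
      cfc_mul f g' A hf.continuousOn hg'.continuousOn]
  have h2 := (hμ.2 (fun x => g x * (f x * g' x)) (by fun_prop)).2
  rw [h1] at h2
  exact h2

/-- Urysohn functions of a closed set -/
noncomputable def ury (K : Set ℝ) (n : ℕ) (x : ℝ) : ℝ := max 0 (1 - n * Metric.infDist x K)

theorem ury_continuous (K : Set ℝ) (n : ℕ) : Continuous (ury K n) := by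
  unfold ury
  have := Metric.continuous_infDist_pt K
  fun_prop

theorem ury_nonneg (K : Set ℝ) (n : ℕ) (x : ℝ) : 0 ≤ ury K n x := le_max_left _ _

theorem ury_le_one (K : Set ℝ) (n : ℕ) (x : ℝ) : ury K n x ≤ 1 := by
  unfold ury
  have : 0 ≤ (n : ℝ) * Metric.infDist x K := mul_nonneg (Nat.cast_nonneg n) Metric.infDist_nonneg
  exact max_le zero_le_one (by linarith)

theorem ury_tendsto {K : Set ℝ} (hK : IsClosed K) (hne : K.Nonempty) (x : ℝ) :
    Tendsto (fun n => ury K n x) atTop (𝓝 (K.indicator (fun _ => (1 : ℝ)) x)) := by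
  by_cases hx : x ∈ K
  · have h1 : ∀ n, ury K n x = 1 := by
      intro n
      unfold ury
      rw [Metric.infDist_zero_of_mem hx, mul_zero, sub_zero]
      exact max_eq_right zero_le_one
    simp only [h1, Set.indicator_of_mem hx]
    exact tendsto_const_nhds
  · have hpos : 0 < Metric.infDist x K := (hK.notMem_iff_infDist_pos hne).1 hx
    rw [Set.indicator_of_notMem hx]
    apply tendsto_const_nhds.congr'
    obtain ⟨N, hN⟩ := exists_nat_gt (1 / Metric.infDist x K)
    filter_upwards [eventually_ge_atTop N] with n hn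
    unfold ury
    have h1 : 1 / Metric.infDist x K < n := hN.trans_le (by exact_mod_cast hn)
    rw [div_lt_iff₀ hpos] at h1
    exact (max_eq_left (by linarith)).symm

theorem exists_ac_vector (A : H →L[ℂ] H) (hA : IsSelfAdjoint A) (e : H) (μ : Measure ℝ)
    (hμ : IsSpectralMeasure A e μ) (hns : ¬ μ ⟂ₘ (volume : Measure ℝ)) :
    ∃ φ : H, φ ≠ 0 ∧ ∃ ν : Measure ℝ, IsSpectralMeasure A φ ν ∧ ν ≪ volume := by
  have hfin : IsFiniteMeasure μ := hμ.1
  -- the carrier of the absolutely continuous part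
  obtain ⟨S, hS, hS1, hS2⟩ := Measure.mutuallySingular_singularPart μ volume
  have hSac : μ.restrict S ≪ volume := by
    refine Measure.AbsolutelyContinuous.mk fun T hT h0 => ?_
    rw [Measure.restrict_apply hT]
    rw [Measure.haveLebesgueDecomposition_add μ volume, Measure.add_apply]
    have h1 : (μ.singularPart volume) (T ∩ S) = 0 :=
      measure_mono_null Set.inter_subset_right hS1
    have h2 : (volume.withDensity (μ.rnDeriv volume)) (T ∩ S) = 0 :=
      withDensity_absolutelyContinuous _ _ (measure_mono_null Set.inter_subset_left h0)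
    rw [h1, h2, add_zero]
  have hS0 : μ S ≠ 0 := fun h0 => hns ⟨S, hS, h0, hS2⟩
  obtain ⟨K, hKS, hK, hK0⟩ := hS.exists_lt_isCompact_of_ne_top (measure_ne_top μ S)
    (pos_iff_ne_zero.2 hS0)
  have hKne : K.Nonempty := by
    rw [Set.nonempty_iff_ne_empty]
    rintro rfl
    simp at hK0
  have hKc : IsClosed K := hK.isClosed
  have hKm : MeasurableSet K := hK.measurableSet
  set g : ℕ → ℝ → ℝ := fun n => ury K n with hg
  have hgc : ∀ n, Continuous (g n) := fun n => ury_continuous K n
  have hlim : ∀ x, Tendsto (fun n => g n x) atTop (𝓝 (K.indicator (fun _ => (1 : ℝ)) x)) :=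
    fun x => ury_tendsto hKc hKne x
  -- dominated convergence
  have hdct : ∀ f : ℝ → ℝ, Continuous f → Tendsto (fun n => ∫ x, g n x * (f x * g n x) ∂μ) atTop
      (𝓝 (∫ x, f x ∂(μ.restrict K))) := by
    intro f hf
    rw [← integral_indicator hKm]
    refine tendsto_integral_of_dominated_convergence (fun x => ‖f x‖) ?_ (hμ.2 f hf).1.norm ?_ ?_
    · intro n
      exact ((hgc n).mul (hf.mul (hgc n))).aestronglyMeasurable
    · intro n
      refine Eventually.of_forall fun x => ?_
      rw [norm_mul, norm_mul, Real.norm_of_nonneg (ury_nonneg K n x)]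
      have h1 := ury_le_one K n x
      have h2 := ury_nonneg K n x
      have h3 := norm_nonneg (f x)
      calc ury K n x * (‖f x‖ * ury K n x) = ‖f x‖ * (ury K n x * ury K n x) := by ring
        _ ≤ ‖f x‖ * 1 := mul_le_mul_of_nonneg_left (by nlinarith) h3
        _ = ‖f x‖ := mul_one _
    · refine Eventually.of_forall fun x => ?_
      have h1 := (hlim x).mul ((tendsto_const_nhds (x := f x)).mul (hlim x))
      refine h1.trans_eq ?_
      congr 1
      by_cases hx : x ∈ K
      · simp [hx]
      · simp [hx]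
  have hdct2 : Tendsto (fun n => ∫ x, (g n x - K.indicator (fun _ => (1 : ℝ)) x) ^ 2 ∂μ) atTop
      (𝓝 0) := by
    have h0 : (0 : ℝ) = ∫ x, (0 : ℝ) ∂μ := by simp
    rw [h0]
    refine tendsto_integral_of_dominated_convergence (fun _ => (1 : ℝ)) ?_
      (integrable_const _) ?_ ?_
    · intro n
      exact (((hgc n).measurable.sub (measurable_const.indicator hKm)).pow_const 2).aestronglyMeasurable
    · intro n
      refine Eventually.of_forall fun x => ?_
      have h1 := ury_le_one K n x
      have h2 := ury_nonneg K n x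
      rw [Real.norm_of_nonneg (sq_nonneg _)]
      by_cases hx : x ∈ K
      · simp only [hg, Set.indicator_of_mem hx]
        nlinarith
      · simp only [hg, Set.indicator_of_notMem hx]
        nlinarith
    · refine Eventually.of_forall fun x => ?_
      have h1 := ((hlim x).sub (tendsto_const_nhds (x := K.indicator (fun _ => (1 : ℝ)) x))).pow 2
      simpa using h1
  -- the norms of the differences
  have hnorm : ∀ n m, ‖cfc (g n) A e - cfc (g m) A e‖ ^ 2 = ∫ x, (g n x - g m x) ^ 2 ∂μ := by
    intro n m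
    have h1 : cfc (g n) A e - cfc (g m) A e = cfc (fun x => g n x - g m x) A e := by
      rw [cfc_sub (g n) (g m) A (hgc n).continuousOn (hgc m).continuousOn]
      rfl
    rw [h1]
    have h2 := inner_cfc_cfc A hA e μ hμ (fun _ => 1) (fun x => g n x - g m x)
      (fun x => g n x - g m x) continuous_const ((hgc n).sub (hgc m)) ((hgc n).sub (hgc m))
    have h3 : cfc (fun _ : ℝ => (1 : ℝ)) A = 1 := cfc_const_one ℝ A
    rw [h3] at h2
    have h4 : (1 : H →L[ℂ] H) (cfc (fun x => g n x - g m x) A e) =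
        cfc (fun x => g n x - g m x) A e := rfl
    rw [h4, inner_self_eq_norm_sq_to_K] at h2
    have h5 : ((‖cfc (fun x => g n x - g m x) A e‖ ^ 2 : ℝ) : ℂ) =
        ((∫ x, (g n x - g m x) * (1 * (g n x - g m x)) ∂μ : ℝ) : ℂ) := by
      rw [← h2]
      push_cast
      rfl
    rw [Complex.ofReal_inj.1 h5]
    refine integral_congr_ae (Eventually.of_forall fun x => ?_)
    simp only
    ring
  have hsqint : ∀ n, Integrable (fun x => (g n x - K.indicator (fun _ => (1 : ℝ)) x) ^ 2) μ := by
    intro n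
    refine Integrable.of_bound
      (((hgc n).measurable.sub (measurable_const.indicator hKm)).pow_const 2).aestronglyMeasurable
      1 (Eventually.of_forall fun x => ?_)
    have h1 := ury_le_one K n x
    have h2 := ury_nonneg K n x
    rw [Real.norm_of_nonneg (sq_nonneg _)]
    by_cases hx : x ∈ K
    · simp only [hg, Set.indicator_of_mem hx]
      nlinarith
    · simp only [hg, Set.indicator_of_notMem hx]
      nlinarith
  have hbd : ∀ n m, ‖cfc (g n) A e - cfc (g m) A e‖ ^ 2 ≤
      2 * (∫ x, (g n x - K.indicator (fun _ => (1 : ℝ)) x) ^ 2 ∂μ) +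
        2 * ∫ x, (g m x - K.indicator (fun _ => (1 : ℝ)) x) ^ 2 ∂μ := by
    intro n m
    rw [hnorm, ← integral_const_mul, ← integral_const_mul,
      ← integral_add ((hsqint n).const_mul 2) ((hsqint m).const_mul 2)]
    refine integral_mono_of_nonneg (Eventually.of_forall fun x => sq_nonneg _)
      (((hsqint n).const_mul 2).add ((hsqint m).const_mul 2)) (Eventually.of_forall fun x => ?_)
    simp only
    nlinarith [sq_nonneg ((g n x - K.indicator (fun _ => (1 : ℝ)) x) +
      (g m x - K.indicator (fun _ => (1 : ℝ)) x))]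
  have hcau : CauchySeq (fun n => cfc (g n) A e) := by
    rw [Metric.cauchySeq_iff']
    intro ε hε
    have h1 := (hdct2.eventually (gt_mem_nhds (show (0 : ℝ) < ε ^ 2 / 8 by positivity)))
    obtain ⟨N, hN⟩ := eventually_atTop.1 h1
    refine ⟨N, fun n hn => ?_⟩
    rw [dist_eq_norm]
    have h2 := hbd n N
    have h3 := hN n hn
    have h4 := hN N le_rfl
    have h5 : ‖cfc (g n) A e - cfc (g N) A e‖ ^ 2 < ε ^ 2 := by
      have : 0 < ε ^ 2 := by positivity
      linarith
    exact lt_of_pow_lt_pow_left₀ 2 hε.le h5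
  obtain ⟨φ, hφ⟩ := cauchySeq_tendsto_of_complete hcau
  have hspec : ∀ f : ℝ → ℝ, Continuous f →
      ⟪φ, cfc f A φ⟫_ℂ = ((∫ x, f x ∂(μ.restrict K) : ℝ) : ℂ) := by
    intro f hf
    have h1 : Tendsto (fun n => ⟪cfc (g n) A e, cfc f A (cfc (g n) A e)⟫_ℂ) atTop
        (𝓝 ⟪φ, cfc f A φ⟫_ℂ) :=
      hφ.inner (((cfc f A).continuous.tendsto φ).comp hφ)
    have h2 : Tendsto (fun n => ((∫ x, g n x * (f x * g n x) ∂μ : ℝ) : ℂ)) atTop
        (𝓝 ((∫ x, f x ∂(μ.restrict K) : ℝ) : ℂ)) :=
      (Complex.continuous_ofReal.tendsto _).comp (hdct f hf)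
    refine tendsto_nhds_unique h1 (h2.congr fun n => ?_)
    exact (inner_cfc_cfc A hA e μ hμ f (g n) (g n) hf (hgc n) (hgc n)).symm
  refine ⟨φ, ?_, μ.restrict K, ⟨inferInstance, fun f hf => ⟨(hμ.2 f hf).1.restrict, hspec f hf⟩⟩, ?_⟩
  · rintro rfl
    have h1 := hspec (fun _ => 1) continuous_const
    rw [inner_zero_left] at h1
    have h2 : (∫ x, (1 : ℝ) ∂(μ.restrict K)) = 0 := by exact_mod_cast h1.symm
    rw [integral_const, smul_eq_mul, mul_one] at h2
    have h3 : (μ.restrict K).real Set.univ = μ.real K := by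
      simp [Measure.real]
    rw [h3] at h2
    have h4 : μ K = 0 := (measureReal_eq_zero_iff (measure_ne_top μ K)).1 h2
    exact hK0.ne' h4
  · refine Measure.AbsolutelyContinuous.trans ?_ hSac
    exact Measure.absolutelyContinuous_of_le (Measure.restrict_mono hKS le_rfl)

end Pool.Agent.H82.AcVector
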